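import Pool.Agent.H31.MP.Basic

/-!
# The measure is concentrated on the dense zones (row EN)
-/

set_option autoImplicit false

open Finset Real ArithmeticFunction
open scoped Nat

namespace Pool.Agent.H70.MTP

open Pool.Agent.H31.MP
open Pool.Agent.H30.BV (NX wx WX)
open Pool.Agent.H21.PI (X gam)

theorem sum_ip_le_X (a b : ℕ) (h : b ≤ a + 1 + ⌊Real.log (a : ℝ)⌋₊) :
    ∑ m ∈ Icc a b, ip m ≤ (X a : ℝ) := by
  have h1 : ∑ m ∈ Icc a b, ip m = (((Icc a b).filter Nat.Prime).card : ℝ) := by
    rw [Finset.card_filter, Nat.cast_sum]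
    apply Finset.sum_congr rfl
    intro m _
    unfold ip
    split_ifs <;> simp
  rw [h1]
  unfold X
  exact_mod_cast Finset.card_le_card
    (Finset.filter_subset_filter _ (Finset.Icc_subset_Icc le_rfl h))

theorem pf_EN (hMX : T_MX) (hZO : T_ZO) : T_EN := by
  classical
  intro j hj H κ t Z₀ hκ hκ8 ht
  have hjr : (1 : ℝ) ≤ j := by exact_mod_cast hj
  have hM : (1 : ℝ) ≤ (2 * j + 3) / κ := by
    rw [le_div_iff₀ hκ]
    linarith
  obtain ⟨C₃, hC₃, hMX1⟩ := hMX ((2 * j + 3) / κ) κ hM hκ hκ8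
  obtain ⟨Z₁, hMX2⟩ := hMX1 t ht
  have hε : (0 : ℝ) < 1 / (4 * C₃ ^ 2) := by positivity
  obtain ⟨c, hc, n₀, hZO1⟩ := hZO j (1 / (4 * C₃ ^ 2)) hε
  obtain ⟨n, hn, hgam⟩ := H c hc (max n₀ (⌈4 * max (max Z₀ Z₁) 16⌉₊))
  have hn0 : n₀ ≤ n := (le_max_left _ _).trans hn
  have hnr : 4 * max (max Z₀ Z₁) 16 ≤ (n : ℝ) :=
    (Nat.le_ceil _).trans (by exact_mod_cast (le_max_right _ _).trans hn)
  set Z : ℝ := (n : ℝ) / 4 with hZ
  have hZmax : max (max Z₀ Z₁) 16 ≤ Z := by
    rw [hZ]
    linarith
  have hZ0 : Z₀ ≤ Z := (le_max_left _ _).trans ((le_max_left _ _).trans hZmax)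
  have hZ1 : Z₁ ≤ Z := (le_max_right _ _).trans ((le_max_left _ _).trans hZmax)
  have hZ16 : (16 : ℝ) ≤ Z := (le_max_right _ _).trans hZmax
  have hZpos : 0 < Z := by linarith
  have hn4 : (n : ℝ) = 4 * Z := by rw [hZ]; ring
  have hNX : NX Z ≤ n := by
    unfold NX
    rw [Nat.ceil_le, hn4]
    linarith
  obtain ⟨B, hB1, hB2, hB3⟩ := hZO1 n hn0 hgam
  obtain ⟨w, v, hw0, hv0, hw1, hvw, hMF, hvz, hP1, hP2, hPB⟩ := hMX2 Z hZ1
  set F := ∑ n' ∈ Icc 1 (NX Z), v n' with hF
  set D := (Icc 1 (NX Z)).filter (fun n' : ℕ => Z / 4 ≤ n' ∧ n' ∉ B ∧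
    ∀ m : ℕ, n' ≤ m → (m : ℝ) ≤ n' + 12 * Real.log n → j < X m) with hD
  set B' := (Icc 1 (NX Z)).filter (fun n' : ℕ => n' ∈ B) with hB'
  have hlog4 : Real.log 4 ≤ Real.log Z / 2 := by
    have h1 : Real.log 16 ≤ Real.log Z := Real.log_le_log (by norm_num) hZ16
    have h2 : Real.log 16 = 2 * Real.log 4 := by
      rw [show (16 : ℝ) = 4 ^ 2 by norm_num, Real.log_pow]
      norm_num
    linarith
  have hlog4p : 0 < Real.log 4 := Real.log_pos (by norm_num)
  have hlogZ : 0 < Real.log Z := by linarith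
  have hlogn : Real.log Z ≤ Real.log n := by
    apply Real.log_le_log hZpos
    rw [hn4]
    linarith
  -- the small sets
  have hBsum : ∑ n' ∈ B', v n' ≤ 1 := by
    refine (hPB B' (Finset.filter_subset _ _)).trans ?_
    have h1 : (B'.card : ℝ) ≤ 1 / (4 * C₃ ^ 2) * n := by
      refine le_trans ?_ hB2
      have : B' ⊆ B := by
        intro x hx
        rw [hB', Finset.mem_filter] at hx
        exact hx.2
      exact_mod_cast Finset.card_le_card this
    have h2 : (B'.card : ℝ) / Z ≤ (1 / C₃) ^ 2 := by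
      rw [div_le_iff₀ hZpos]
      refine h1.trans (le_of_eq ?_)
      rw [hn4]
      field_simp
    have h3 : √((B'.card : ℝ) / Z) ≤ 1 / C₃ := by
      rw [← Real.sqrt_sq (by positivity : (0 : ℝ) ≤ 1 / C₃)]
      exact Real.sqrt_le_sqrt h2
    calc C₃ * √((B'.card : ℝ) / Z) ≤ C₃ * (1 / C₃) := by
          exact mul_le_mul_of_nonneg_left h3 hC₃.le
      _ = 1 := by field_simp
  -- pointwise bound
  have hpt : ∀ n' ∈ Icc 1 (NX Z), v n' ≤ (if n' ∈ D then v n' else 0) +
      (if n' ∈ B' then v n' else 0) + 2 * j * w n' := by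
    intro n' hn'
    have hjw : 0 ≤ 2 * (j : ℝ) * w n' := by
      have := hw0 n'
      positivity
    by_cases hD' : n' ∈ D
    · rw [if_pos hD']
      have : 0 ≤ (if n' ∈ B' then v n' else 0) := by
        split_ifs
        · exact hv0 n'
        · exact le_rfl
      linarith
    · rw [if_neg hD']
      by_cases hBB : n' ∈ B'
      · rw [if_pos hBB]
        linarith
      · rw [if_neg hBB]
        by_cases hv : v n' = 0
        · rw [hv]
          linarith
        · have hz4 := hvz n' hv
          have hnB : n' ∉ B := by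
            intro h
            exact hBB (by rw [hB', Finset.mem_filter]; exact ⟨hn', h⟩)
          have hn1 : n' ∈ Icc 1 n := by
            rw [Finset.mem_Icc] at hn' ⊢
            exact ⟨hn'.1, hn'.2.trans hNX⟩
          rcases hB3 n' hn1 hnB with hs | hd
          · have h1 : X n' < j := by
              apply hs n' le_rfl
              have : 0 ≤ Real.log n := by linarith
              linarith
            have hn'pos : (0 : ℝ) < n' := by
              have : 0 < Z / 4 := by positivity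
              linarith
            have h2 : ⌊κ * Real.log Z⌋₊ ≤ ⌊Real.log (n' : ℝ)⌋₊ := by
              apply Nat.floor_le_floor
              have h3 : Real.log (Z / 4) ≤ Real.log (n' : ℝ) :=
                Real.log_le_log (by positivity) hz4
              rw [Real.log_div (by positivity) (by norm_num)] at h3
              have h4 : κ * Real.log Z ≤ 1 / 8 * Real.log Z :=
                mul_le_mul_of_nonneg_right hκ8 hlogZ.le
              linarith
            have h5 := hvw n' hn'
            have h6 := sum_ip_le_X n' (n' + ⌊κ * Real.log Z⌋₊) (by omega)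
            have h7 : ((X n' : ℕ) : ℝ) ≤ j := by exact_mod_cast h1.le
            have h8 : 2 * w n' * ∑ m ∈ Icc n' (n' + ⌊κ * Real.log Z⌋₊), ip m ≤
                2 * w n' * j := by
              apply mul_le_mul_of_nonneg_left (h6.trans h7)
              have := hw0 n'
              positivity
            linarith
          · exfalso
            apply hD'
            rw [hD, Finset.mem_filter]
            exact ⟨hn', hz4, hnB, hd⟩
  have hsum : F ≤ ∑ n' ∈ D, v n' + 1 + 2 * j := by
    have h1 := Finset.sum_le_sum hpt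
    rw [Finset.sum_add_distrib, Finset.sum_add_distrib, ← Finset.mul_sum, ← hF] at h1
    have h2 : ∑ n' ∈ Icc 1 (NX Z), (if n' ∈ D then v n' else 0) = ∑ n' ∈ D, v n' := by
      rw [← Finset.sum_filter]
      apply Finset.sum_congr _ (fun _ _ => rfl)
      rw [hD]
      ext x
      simp only [Finset.mem_filter]
      tauto
    have h3 : ∑ n' ∈ Icc 1 (NX Z), (if n' ∈ B' then v n' else 0) = ∑ n' ∈ B', v n' := by
      rw [← Finset.sum_filter]
      apply Finset.sum_congr _ (fun _ _ => rfl)
      rw [hB']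
      ext x
      simp only [Finset.mem_filter]
      tauto
    rw [h2, h3] at h1
    have h4 : 2 * (j : ℝ) * ∑ n' ∈ Icc 1 (NX Z), w n' ≤ 2 * j * 1 :=
      mul_le_mul_of_nonneg_left hw1 (by positivity)
    linarith
  have hFM : (2 * (j : ℝ) + 3) ≤ κ * F := by
    rw [div_le_iff₀ hκ] at hMF
    linarith
  refine ⟨Z, hZ0, v, D, Finset.filter_subset _ _, hv0, ?_, ?_, ?_, ?_, hP1, hP2⟩
  · exact lt_of_lt_of_le (by linarith) hMF
  · rw [← hF]
    linarith
  · intro n' hn'
    rw [hD, Finset.mem_filter] at hn'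
    exact hn'.2.1
  · intro n' hn' m hm1 hm2
    rw [hD, Finset.mem_filter] at hn'
    apply hn'.2.2.2 m hm1
    linarith

end Pool.Agent.H70.MTP
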