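import Pool.Agent.H70.MTP.Pos

/-!
# Three primes, sum over the last two (row X4)
-/

set_option autoImplicit false

open Finset Real ArithmeticFunction
open scoped Nat

namespace Pool.Agent.H70.MTP

open Pool.Agent.H31.MP
open Pool.Agent.H30.BV (NX wx WX)

theorem pf_X4 (hW4 : T_W4) (hSA : T_SA) (hDG : T_DG) : T_X4 := by
  classical
  intro k κ hk hκ hκ8
  obtain ⟨b, hb⟩ := hW4 k (1 / 100) hk (by norm_num)
  obtain ⟨y₁, hy₁⟩ := hSA k (1 / 100) (by norm_num)
  obtain ⟨y₂, hy₂⟩ := hSA (k + 1) (1 / 100) (by norm_num)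
  refine ⟨b, max (2 * k + 6) (max y₁ y₂), ?_⟩
  intro y₀ A δ C hy₀ hδ hδb hC t ht
  have hy₀1 : 2 * k + 6 ≤ y₀ := (le_max_left _ _).trans hy₀
  have hy₀2 : y₁ ≤ y₀ := (le_max_left _ _).trans ((le_max_right _ _).trans hy₀)
  have hy₀3 : y₂ ≤ y₀ := (le_max_right _ _).trans ((le_max_right _ _).trans hy₀)
  obtain ⟨X₁, hX₁⟩ := hb y₀ (A + 3) δ C hy₀1 hδ hδb hC
  obtain ⟨X₂, hX₂⟩ := hy₁ y₀ hy₀2 t ht
  obtain ⟨X₃, hX₃⟩ := hy₂ y₀ hy₀3 t ht
  refine ⟨max (max X₁ X₂) (max X₃ (Real.exp 100)), ?_⟩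
  intro Z hZ Y h i l a m b' m' hinj hh hW hY1 hY hWt ha hb' ham hbm hm hm'
  have hZ1 : X₁ ≤ Z := (le_max_left _ _).trans ((le_max_left _ _).trans hZ)
  have hZ2 : X₂ ≤ Z := (le_max_right _ _).trans ((le_max_left _ _).trans hZ)
  have hZ3 : X₃ ≤ Z := (le_max_left _ _).trans ((le_max_right _ _).trans hZ)
  have hZ4 : Real.exp 100 ≤ Z := (le_max_right _ _).trans ((le_max_right _ _).trans hZ)
  have hZpos : 0 < Z := (Real.exp_pos _).trans_le hZ4
  have hZone : 1 ≤ Z := by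
    have : (1 : ℝ) ≤ Real.exp 100 := Real.one_le_exp (by norm_num)
    linarith
  have hL : 100 ≤ Real.log Z := by rwa [Real.le_log_iff_exp_le hZpos]
  have hL0 : 0 < Real.log Z := by linarith
  set L := Real.log Z with hLdef
  obtain ⟨hph, hWp⟩ := tot_ratio y₀
  set ph := ((primorial y₀).totient : ℝ) with hphdef
  set W := ((primorial y₀ : ℕ) : ℝ) with hWdef
  set Mi := MM Z y₀ (Z ^ δ) Y l h i with hMi
  have hMi0 : 0 ≤ Mi := MM_nonneg hDG Z hZone y₀ _ Y l h i
  have hh10 : ∀ j, (h j : ℝ) ≤ 10 * L := by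
    intro j
    refine (hh j).trans ?_
    have := mul_le_mul_of_nonneg_right hκ8 hL0.le
    linarith
  have hh20 : ∀ j, (h j : ℝ) ≤ 20 * L := fun j => (hh10 j).trans (by linarith)
  have hY32 : Y ≤ Z ^ (1 / 32 : ℝ) := by
    refine hY.trans (Real.rpow_le_rpow_of_exponent_le hZone (by linarith))
  set G := (1 + 1 / 100) * (Mi * (16 * (W / ph) / L) ^ 2) with hG
  have hG0 : 0 ≤ G := by positivity
  set E := Z / L ^ (A + 3) with hE
  have hE0 : 0 ≤ E := by positivity
  set u : ℕ → ℝ := fun e => if (1 + e).Coprime (primorial y₀) then Rp y₀ e h else 0 with hu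
  set u' : ℕ → ℕ → ℝ := fun e e' => if (1 + e').Coprime (primorial y₀) then
    Rp y₀ e' (Fin.cons e h : Fin (k + 1) → ℕ) else 0 with hu'
  have hu0 : ∀ e, 0 ≤ u e := by
    intro e
    simp only [hu]
    split_ifs
    · exact Rp_nonneg _ _ _
    · exact le_rfl
  -- one term
  have hterm : ∀ e ∈ Ico a (a + m), ∀ s ∈ Ico b' (b' + m'),
      S4 Z y₀ (Z ^ δ) Y l h i e (e + s) ≤ G * (u e * u' e (e + s)) + E := by
    intro e he s hs
    rw [Finset.mem_Ico] at he hs
    have h1 : κ * L < e := lt_of_lt_of_le ha (by exact_mod_cast he.1)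
    have h2 : ∀ j, e ≠ h j := by
      intro j hj
      have := hh j
      rw [← hj] at this
      linarith
    have h3 : ∀ j, e + s ≠ h j := by
      intro j hj
      have h4 := hh j
      rw [← hj, Nat.cast_add] at h4
      have : (0 : ℝ) ≤ s := Nat.cast_nonneg s
      linarith
    have h4 : (e : ℝ) ≤ 10 * L := by
      refine le_trans ?_ ham
      exact_mod_cast he.2.le
    have h5 : (s : ℝ) ≤ 10 * L := by
      refine le_trans ?_ hbm
      exact_mod_cast hs.2.le
    have h6 := hX₁ Z hZ1 Y h i l e (e + s) hinj hh10 hW hY1 hY32 hWt h2 h3 (by omega)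
      (by linarith) (by rw [Nat.cast_add]; linarith)
    refine h6.trans (add_le_add (le_of_eq ?_) le_rfl)
    simp only [hu, hu', hG]
    by_cases hc1 : (1 + e).Coprime (primorial y₀)
    · by_cases hc2 : (1 + (e + s)).Coprime (primorial y₀)
      · rw [if_pos ⟨hc1, hc2⟩, if_pos hc1, if_pos hc2]
        ring
      · rw [if_neg (fun hc => hc2 hc.2), if_neg hc2]
        ring
    · rw [if_neg (fun hc => hc1 hc.1), if_neg hc1]
      ring
  -- inner sums
  have hinner : ∀ e ∈ Ico a (a + m), ∑ s ∈ Ico b' (b' + m'), u' e (e + s) ≤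
      (1 + 1 / 100) * (ph / W) * m' := by
    intro e he
    rw [Finset.mem_Ico] at he
    have h4 : (e : ℝ) ≤ 10 * L := by
      refine le_trans ?_ ham
      exact_mod_cast he.2.le
    have h1 : ∑ s ∈ Ico b' (b' + m'), u' e (e + s) = ∑ e' ∈ Ico (e + b') (e + b' + m'), u' e e' := by
      rw [add_assoc e b' m', add_comm e b', add_comm e (b' + m'),
        ← Finset.sum_Ico_add (fun e' => u' e e') b' (b' + m') e]
    rw [h1]
    have h2 := hX₃ Z hZ3 (Fin.cons e h : Fin (k + 1) → ℕ) (e + b') m' ?_ ?_ hm'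
    · refine le_trans (le_of_eq ?_) h2
      rw [Finset.sum_filter]
    · intro j
      refine Fin.cases ?_ (fun j => ?_) j
      · rw [Fin.cons_zero]
        linarith
      · rw [Fin.cons_succ]
        exact hh20 j
    · rw [add_assoc, Nat.cast_add]
      linarith
  have houter : ∑ e ∈ Ico a (a + m), u e ≤ (1 + 1 / 100) * (ph / W) * m := by
    have h2 := hX₂ Z hZ2 h a m hh20 (ham.trans (by linarith)) hm
    refine le_trans (le_of_eq ?_) h2
    rw [Finset.sum_filter]
  have hm0 : (0 : ℝ) ≤ m := Nat.cast_nonneg m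
  have hm0' : (0 : ℝ) ≤ m' := Nat.cast_nonneg m'
  have hm10 : (m : ℝ) ≤ 10 * L := by
    refine le_trans ?_ ham
    rw [Nat.cast_add]
    have : (0 : ℝ) ≤ a := Nat.cast_nonneg a
    linarith
  have hm10' : (m' : ℝ) ≤ 10 * L := by
    refine le_trans ?_ hbm
    rw [Nat.cast_add]
    have : (0 : ℝ) ≤ b' := Nat.cast_nonneg b'
    linarith
  -- total
  have htot : ∑ e ∈ Ico a (a + m), ∑ s ∈ Ico b' (b' + m'), S4 Z y₀ (Z ^ δ) Y l h i e (e + s) ≤
      G * (∑ e ∈ Ico a (a + m), u e * ∑ s ∈ Ico b' (b' + m'), u' e (e + s)) +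
        (m : ℝ) * (m' * E) := by
    have h1 : ∀ e ∈ Ico a (a + m), ∑ s ∈ Ico b' (b' + m'), S4 Z y₀ (Z ^ δ) Y l h i e (e + s) ≤
        G * (u e * ∑ s ∈ Ico b' (b' + m'), u' e (e + s)) + m' * E := by
      intro e he
      refine (Finset.sum_le_sum (hterm e he)).trans (le_of_eq ?_)
      rw [Finset.sum_add_distrib, Finset.sum_const, Nat.card_Ico, Nat.add_sub_cancel_left,
        nsmul_eq_mul, ← Finset.mul_sum, ← Finset.mul_sum]
    refine (Finset.sum_le_sum h1).trans (le_of_eq ?_)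
    rw [Finset.sum_add_distrib, Finset.sum_const, Nat.card_Ico, Nat.add_sub_cancel_left,
      nsmul_eq_mul, ← Finset.mul_sum]
  refine htot.trans ?_
  have h1 : ∑ e ∈ Ico a (a + m), u e * ∑ s ∈ Ico b' (b' + m'), u' e (e + s) ≤
      ((1 + 1 / 100) * (ph / W) * m) * ((1 + 1 / 100) * (ph / W) * m') := by
    calc ∑ e ∈ Ico a (a + m), u e * ∑ s ∈ Ico b' (b' + m'), u' e (e + s)
        ≤ ∑ e ∈ Ico a (a + m), u e * ((1 + 1 / 100) * (ph / W) * m') :=
          Finset.sum_le_sum fun e he => mul_le_mul_of_nonneg_left (hinner e he) (hu0 e)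
      _ = (∑ e ∈ Ico a (a + m), u e) * ((1 + 1 / 100) * (ph / W) * m') := by
          rw [Finset.sum_mul]
      _ ≤ _ := mul_le_mul_of_nonneg_right houter (by positivity)
  have h2 : G * (∑ e ∈ Ico a (a + m), u e * ∑ s ∈ Ico b' (b' + m'), u' e (e + s)) ≤
      280 * (m * m' / L ^ 2) * Mi := by
    refine (mul_le_mul_of_nonneg_left h1 hG0).trans ?_
    have h3 : G * (((1 + 1 / 100) * (ph / W) * m) * ((1 + 1 / 100) * (ph / W) * m')) =
        (256 * (1 + 1 / 100) ^ 3) * (m * m' / L ^ 2 * Mi) := by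
      rw [hG]
      field_simp
      ring
    rw [h3, mul_assoc 280]
    apply mul_le_mul_of_nonneg_right (by norm_num)
    positivity
  have h4 : (m : ℝ) * (m' * E) ≤ Z / L ^ A := by
    have h5 : (m : ℝ) * (m' * E) ≤ (10 * L) * ((10 * L) * E) := by
      apply mul_le_mul hm10 _ (by positivity) (by positivity)
      exact mul_le_mul_of_nonneg_right hm10' hE0
    refine h5.trans ?_
    rw [hE, pow_add]
    have h6 : 10 * L * (10 * L * (Z / (L ^ A * L ^ 3))) = (100 / L) * (Z / L ^ A) := by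
      field_simp
      ring
    rw [h6]
    have h7 : 100 / L ≤ 1 := by
      rw [div_le_one hL0]
      exact hL
    have h8 : 0 ≤ Z / L ^ A := by positivity
    calc 100 / L * (Z / L ^ A) ≤ 1 * (Z / L ^ A) := mul_le_mul_of_nonneg_right h7 h8
      _ = Z / L ^ A := one_mul _
  linarith

end Pool.Agent.H70.MTP
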