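import Pool.Agent.H31.MP.Basic

/-!
# Positivity of the main terms
-/

set_option autoImplicit false

open Finset Real ArithmeticFunction
open scoped Nat

namespace Pool.Agent.H70.MTP

open Pool.Agent.H31.MP
open Pool.Agent.H30.BV (NX wx WX)
open Pool.Agent.H27.LS (hat_nonneg)

theorem WX_nonneg (Z : ℝ) : 0 ≤ WX Z :=
  Finset.sum_nonneg fun _ _ => mul_nonneg vonMangoldt_nonneg (hat_nonneg _)

theorem nu_le {K : ℕ} (h : Fin K → ℕ) (p : ℕ) : nu h p ≤ p := by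
  classical
  unfold nu
  refine (Finset.card_filter_le _ _).trans ?_
  rw [Finset.card_range]

theorem mem_Pz {y₀ : ℕ} {z : ℝ} {p : ℕ} (hp : p ∈ Pz y₀ z) : p.Prime ∧ y₀ < p := by
  unfold Pz at hp
  rw [Finset.mem_filter] at hp
  exact hp.2

theorem V2_nonneg {K : ℕ} (y₀ : ℕ) (z : ℝ) (h : Fin K → ℕ) : 0 ≤ V2 y₀ z h := by
  unfold V2
  apply Finset.prod_nonneg
  intro p hp
  have h1 := (mem_Pz hp).1
  have h2 : (2 : ℝ) ≤ p := by exact_mod_cast h1.two_le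
  have h3 : (nu h p : ℝ) ≤ p := by exact_mod_cast nu_le h p
  rw [sub_nonneg, div_le_one (by linarith)]
  linarith

theorem QF_nonneg (hDG : T_DG) {K : ℕ} (z Y : ℝ) (l : (Fin K → ℕ) → ℝ) : 0 ≤ QF z Y l := by
  rw [hDG]
  apply Finset.sum_nonneg
  intro r _
  exact mul_nonneg (Finset.prod_nonneg fun _ _ => Nat.cast_nonneg _) (sq_nonneg _)

theorem MM_nonneg (hDG : T_DG) {k : ℕ} (Z : ℝ) (hZ : 1 ≤ Z) (y₀ : ℕ) (z Y : ℝ)
    (l : (Fin k → ℕ) → ℝ) (h : Fin k → ℕ) (i : Fin k) : 0 ≤ MM Z y₀ z Y l h i := by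
  unfold MM
  have h1 := WX_nonneg Z
  have h2 := V2_nonneg y₀ z h
  have h3 := QF_nonneg hDG z Y (res i l)
  have h4 : 0 ≤ Real.log Z := Real.log_nonneg hZ
  positivity

theorem Rp_nonneg {K : ℕ} (y₀ e : ℕ) (h : Fin K → ℕ) : 0 ≤ Rp y₀ e h := by
  unfold Rp
  apply Finset.prod_nonneg
  intro p hp
  rw [Finset.mem_filter, Nat.mem_primeFactors] at hp
  have h2 : (2 : ℝ) ≤ p := by exact_mod_cast hp.1.1.two_le
  rw [inv_nonneg, sub_nonneg, div_le_one (by linarith)]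
  linarith

/-- `φ(W)/W` is positive and its inverse is `W/φ(W)`. -/
theorem tot_ratio (y₀ : ℕ) : 0 < ((primorial y₀).totient : ℝ) ∧ 0 < ((primorial y₀ : ℕ) : ℝ) := by
  have h1 : 0 < primorial y₀ := primorial_pos y₀
  exact ⟨by exact_mod_cast Nat.totient_pos.2 h1, by exact_mod_cast h1⟩

end Pool.Agent.H70.MTP
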